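import Pool.Agent.L5helper32.GP.Defs

/-!
# The gcd recursion with random profinite integers: from the integers to the digits

For helper32 (`GP/Link.lean`); `digit` is the definition of that file.
-/

set_option autoImplicit false

open Finset MeasureTheory ProbabilityTheory

namespace Pool.Agent.L5helper64.GPLink

open Pool.Agent.L5helper32.GP

/-- The digits of the random profinite integers; zero if the base is not prime. -/
def digit {Ω : Type} (U : ℕ → ℕ → Ω → ℕ) (i : ℕ × ℕ × ℕ) (ω : Ω) : ℕ :=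
  if i.2.1.Prime then U i.1 (i.2.1 ^ (i.2.2 + 1)) ω / i.2.1 ^ i.2.2 else 0

theorem gcd_prod_left {ι : Type} [DecidableEq ι] (s : Finset ι) (f : ι → ℕ) (y : ℕ)
    (h : ∀ i ∈ s, ∀ j ∈ s, i ≠ j → Nat.Coprime (f i) (f j)) :
    Nat.gcd (∏ i ∈ s, f i) y = ∏ i ∈ s, Nat.gcd (f i) y := by
  induction s using Finset.induction_on with
  | empty => simp
  | insert a s ha ih =>
    rw [prod_insert ha, prod_insert ha, ← ih fun i hi j hj =>
      h i (mem_insert_of_mem hi) j (mem_insert_of_mem hj)]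
    have hc : Nat.Coprime (f a) (∏ i ∈ s, f i) := by
      refine Nat.Coprime.prod_right fun j hj => ?_
      refine h a (mem_insert_self a s) j (mem_insert_of_mem hj) ?_
      rintro rfl
      exact ha hj
    rw [Nat.gcd_comm, Nat.Coprime.gcd_mul y hc, Nat.gcd_comm y (f a), Nat.gcd_comm y]

theorem gcd_pow_mod (m a p : ℕ) :
    Nat.gcd m ((a % m + 1) ^ p - 1) = Nat.gcd m ((a + 1) ^ p - 1) := by
  have h1 : (a % m + 1) ^ p ≡ (a + 1) ^ p [MOD m] :=
    ((Nat.mod_modEq a m).add_right 1).pow p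
  have h2 : ∀ b : ℕ, (b + 1) ^ p - 1 + 1 = (b + 1) ^ p := fun b =>
    Nat.sub_add_cancel (Nat.one_le_pow _ _ (Nat.succ_pos b))
  have h3 : (a % m + 1) ^ p - 1 ≡ (a + 1) ^ p - 1 [MOD m] := by
    refine Nat.ModEq.add_right_cancel' 1 ?_
    rw [h2, h2]
    exact h1
  rw [Nat.gcd_comm m, Nat.gcd_comm m]
  exact h3.gcd_eq

variable {Ω : Type} [MeasurableSpace Ω] {μ : Measure Ω} {U : ℕ → ℕ → Ω → ℕ}

theorem digit_zero (_h : Prof μ U) (ω : Ω) (c : ℕ) {r : ℕ} (hr : r.Prime) :
    res (digit U) ω c r 0 = U c r ω := by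
  unfold res digit
  rw [if_pos hr, pow_zero, Nat.div_one, zero_add, pow_one]

theorem tr_digit (h : Prof μ U) (ω : Ω) (c : ℕ) {r : ℕ} (hr : r.Prime) (v : ℕ) :
    tr (res (digit U) ω c) r v = U c (r ^ v) ω := by
  induction v with
  | zero =>
    unfold tr
    rw [range_zero, sum_empty, pow_zero, h.compat c 1 1 one_pos (dvd_refl 1) ω, Nat.mod_one]
  | succ v ih =>
    have h1 : tr (res (digit U) ω c) r (v + 1) =
        tr (res (digit U) ω c) r v + res (digit U) ω c r v * r ^ v := by
      unfold tr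
      rw [sum_range_succ]
    have h2 : res (digit U) ω c r v = U c (r ^ (v + 1)) ω / r ^ v := by
      unfold res digit
      rw [if_pos hr]
    rw [h1, ih, h2, h.compat c (r ^ v) (r ^ (v + 1)) (pow_pos hr.pos _)
      (pow_dvd_pow r (Nat.le_succ v)) ω]
    exact Nat.mod_add_div' _ _

theorem jump_digit (h : Prof μ U) (p : ℕ) (ω : Ω) (c : ℕ) {x : ℕ} (hx : x ≠ 0) :
    jump p (res (digit U) ω c) x = Nat.gcd x ((U c x ω + 1) ^ p - 1) := by
  classical
  have h1 : jump p (res (digit U) ω c) x =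
      ∏ r ∈ x.primeFactors, Nat.gcd (r ^ x.factorization r) ((U c x ω + 1) ^ p - 1) := by
    unfold jump
    refine prod_congr rfl fun r hr => ?_
    have hrp := Nat.prime_of_mem_primeFactors hr
    rw [tr_digit h ω c hrp, h.compat c (r ^ x.factorization r) x (Nat.pos_of_ne_zero hx)
      (Nat.ordProj_dvd x r) ω]
    exact gcd_pow_mod _ _ _
  rw [h1, ← gcd_prod_left]
  · congr 1
    exact Nat.prod_factorization_pow_eq_self hx
  · intro i hi j hj hij
    exact Nat.Coprime.pow _ _ ((Nat.coprime_primes (Nat.prime_of_mem_primeFactors hi)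
      (Nat.prime_of_mem_primeFactors hj)).2 hij)

theorem dseq_digit (h : Prof μ U) (p : ℕ) (ω : Ω) (n : ℕ) :
    dseq p (res (digit U) ω) n = seq p (fun c m => U c m ω) n := by
  induction n using Nat.strong_induction_on with
  | _ n ih =>
    match n with
    | 0 => rw [dseq, seq]
    | 1 => rw [dseq, seq]
    | n + 2 =>
      rw [dseq, seq, ih (n + 1) (by omega)]
      by_cases hs : seq p (fun c m => U c m ω) (n + 1) = 0
      · rw [if_pos hs, if_pos hs]
      · rw [if_neg hs, if_neg hs, jump_digit h p ω _ hs]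

end Pool.Agent.L5helper64.GPLink
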