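import Pool.Agent.L5helper32.GR.Defs
import Pool.Agent.Helper923.HMertens

/-!
# The gcd recursion with random residues: after a good descent `q_p(n)` is prime with probability at
least `c`
-/

set_option autoImplicit false

open Finset MeasureTheory ProbabilityTheory

namespace Pool.Agent.L5helper64.GRFive

open Pool.Agent.L5helper32.GR

theorem mul_q (p t : ℕ) : t * q p t + 1 = (t + 1) ^ p := by
  have h1 : Icc 1 p = Ico 1 (p + 1) := by
    ext k
    simp only [mem_Icc, mem_Ico]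
    omega
  unfold q
  rw [h1, sum_Ico_eq_sum_range, add_pow, sum_range_succ', Finset.mul_sum]
  simp only [Nat.add_sub_cancel, pow_zero, one_pow, mul_one, Nat.choose_zero_right, Nat.cast_id,
    Nat.cast_one]
  congr 1
  refine sum_congr rfl fun i _ => ?_
  rw [show 1 + i - 1 = i by omega, show 1 + i = i + 1 by omega]
  ring

theorem q_le (p : ℕ) {n : ℕ} (hn : 1 ≤ n) : q p n ≤ (n + 1) ^ p := by
  have h := mul_q p n
  have h2 : q p n ≤ n * q p n := Nat.le_mul_of_pos_left _ hn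
  omega

theorem root_of_dvd {p r t : ℕ} (h : r ∣ q p t) : Root p r t := by
  unfold Root
  rw [← mul_q]
  have h1 : t * q p t ≡ 0 [MOD r] := (Nat.modEq_zero_iff_dvd).2 (Dvd.dvd.mul_left h _)
  simpa using h1.add_right 1

theorem qprime_of {p z n : ℕ} (hn1 : 1 ≤ n) (hn : n ≤ lev p z) (T : ℕ → ℕ)
    (h1 : ∀ r, r.Prime → r ≤ lev p z + 2 → ¬ Root p r (T r))
    (h2 : ∀ r ∈ pr (lev p z + 2) ((lev p z + 2) ^ p), ¬ Root p r (T r)) : QPrime p T n := by
  intro r hr hrn hdvd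
  have hroot : Root p r (T r) := root_of_dvd hdvd
  by_cases hM : r ≤ lev p z + 2
  · exact h1 r hr hM hroot
  · refine h2 r ?_ hroot
    unfold pr
    rw [mem_filter, mem_Ioc]
    refine ⟨⟨by omega, ?_⟩, hr⟩
    calc r ≤ r ^ 2 := Nat.le_self_pow (by norm_num) r
      _ ≤ q p n := hrn
      _ ≤ (n + 1) ^ p := q_le p hn1
      _ ≤ _ := Nat.pow_le_pow_left (by omega) p

theorem exp_le {x : ℝ} (h0 : 0 ≤ x) (h1 : x ≤ 1 / 2) : Real.exp (-(2 * x)) ≤ 1 - x := by
  have h2 : 1 + 2 * x ≤ Real.exp (2 * x) := by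
    have := Real.add_one_le_exp (2 * x)
    linarith
  rw [Real.exp_neg]
  have h3 : (Real.exp (2 * x))⁻¹ ≤ (1 + 2 * x)⁻¹ :=
    inv_anti₀ (by linarith) h2
  refine h3.trans ?_
  rw [inv_le_iff_one_le_mul₀ (by linarith)]
  nlinarith

theorem prod_lower {p : ℕ} (hp : p.Prime) (hw : ∀ r, r.Prime → w p r ≤ p) :
    ∃ c : ℝ, 0 < c ∧ ∀ M : ℕ, 2 * p ≤ M → c ≤ ∏ r ∈ pr M (M ^ p), (1 - (w p r : ℝ) / r) := by
  obtain ⟨C, hC0, hC⟩ := Pool.Agent.Helper923.HMertens.mertens_ratio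
  refine ⟨Real.exp (-(2 * p * (Real.log p + C / Real.log 2))), Real.exp_pos _, fun M hM => ?_⟩
  have hp2 := hp.two_le
  have hM2 : 2 ≤ M := by omega
  have hMR : (2 : ℝ) ≤ M := by exact_mod_cast hM2
  have hl2 : 0 < Real.log 2 := Real.log_pos (by norm_num)
  have hlM : Real.log 2 ≤ Real.log M := Real.log_le_log (by norm_num) hMR
  have hs : ∑ r ∈ pr M (M ^ p), (1 : ℝ) / r ≤ Real.log p + C / Real.log 2 := by
    have h1 := hC M (M ^ p) hM2 (Nat.le_self_pow (by omega) M)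
    have h2 : Real.log ((M ^ p : ℕ) : ℝ) / Real.log M = p := by
      have h0 : Real.log M ≠ 0 := by linarith
      rw [Nat.cast_pow, Real.log_pow, mul_div_assoc, div_self h0, mul_one]
    rw [h2] at h1
    have h3 := (abs_le.1 h1).2
    have h4 : C / Real.log M ≤ C / Real.log 2 := div_le_div_of_nonneg_left hC0 hl2 hlM
    unfold pr
    linarith
  have h1 : ∏ r ∈ pr M (M ^ p), Real.exp (-(2 * (p / (r : ℝ)))) ≤
      ∏ r ∈ pr M (M ^ p), (1 - (w p r : ℝ) / r) := by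
    refine prod_le_prod (fun r _ => (Real.exp_pos _).le) fun r hr => ?_
    unfold pr at hr
    rw [mem_filter, mem_Ioc] at hr
    have hr0 : (0 : ℝ) < r := by exact_mod_cast hr.2.pos
    have h2 : (w p r : ℝ) / r ≤ p / r :=
      div_le_div_of_nonneg_right (by exact_mod_cast hw r hr.2) hr0.le
    have h3 : (p : ℝ) / r ≤ 1 / 2 := by
      rw [div_le_iff₀ hr0]
      have : ((2 * p : ℕ) : ℝ) ≤ r := by exact_mod_cast (by omega : 2 * p ≤ r)
      push_cast at this
      linarith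
    have h4 := exp_le (x := (p : ℝ) / r) (by positivity) h3
    linarith
  refine le_trans ?_ h1
  rw [← Real.exp_sum]
  refine Real.exp_le_exp.2 ?_
  have h2 : ∑ r ∈ pr M (M ^ p), -(2 * ((p : ℝ) / (r : ℝ)))
      = -(2 * p * ∑ r ∈ pr M (M ^ p), (1 : ℝ) / r) := by
    rw [Finset.mul_sum, ← Finset.sum_neg_distrib]
    refine sum_congr rfl fun r _ => ?_
    ring
  rw [h2]
  have h3 : 2 * (p : ℝ) * ∑ r ∈ pr M (M ^ p), (1 : ℝ) / r
      ≤ 2 * p * (Real.log p + C / Real.log 2) :=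
    mul_le_mul_of_nonneg_left hs (by positivity)
  linarith

/-- `five_good` of `GR/Five.lean`, from the lemmas `w_le`, `nextZero_le`, `dep_run`, `dep_meas`,
`dep_indep` and `prob_none`. -/
theorem five_good_of
    (w_le : ∀ {p r : ℕ}, p.Prime → r.Prime → w p r ≤ p)
    (nextZero_le : ∀ {p : ℕ}, 1 ≤ p → ∀ (T : ℕ → ℕ → ℕ) {z : ℕ}, 1 ≤ z →
      nextZero p T z ≤ lev p z)
    (dep_run : ∀ {p : ℕ}, 1 ≤ p → ∀ {z : ℕ}, 1 ≤ z → ∀ n : ℕ,
      Dep (range (lev p z + 1) ×ˢ range (lev p z + 3)) {f : ℕ × ℕ → ℕ |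
        GoodRun p (fun c r => f (c, r)) z ∧ nextZero p (fun c r => f (c, r)) z = n})
    (dep_meas : ∀ {ι Ω : Type} [MeasurableSpace Ω] {T : ι → Ω → ℕ}, (∀ i, Measurable (T i)) →
      ∀ {S : Finset ι} {A : Set (ι → ℕ)}, Dep S A → MeasurableSet {ω | (fun i => T i ω) ∈ A})
    (dep_indep : ∀ {ι Ω : Type} [MeasurableSpace Ω] {μ : Measure Ω} [IsProbabilityMeasure μ]
      {T : ι → Ω → ℕ}, (∀ i, Measurable (T i)) → iIndepFun T μ → ∀ {S S' : Finset ι},
      Disjoint S S' → ∀ {A B : Set (ι → ℕ)}, Dep S A → Dep S' B →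
      μ.real {ω | (fun i => T i ω) ∈ A ∧ (fun i => T i ω) ∈ B}
        = μ.real {ω | (fun i => T i ω) ∈ A} * μ.real {ω | (fun i => T i ω) ∈ B})
    (prob_none : ∀ {Ω : Type} [MeasurableSpace Ω] {μ : Measure Ω} [IsProbabilityMeasure μ]
      {T : ℕ × ℕ → Ω → ℕ}, Res μ T → ∀ (p c : ℕ) (R : Finset ℕ), (∀ r ∈ R, r.Prime) →
      μ.real {ω | ∀ r ∈ R, ¬ Root p r (res T ω c r)} = ∏ r ∈ R, (1 - (w p r : ℝ) / r))
    {p : ℕ} (hp : p.Prime) (_h5 : 5 ≤ p) : ∃ c : ℝ, 0 < c ∧ ∃ z₁ : ℕ, ∀ z ≥ z₁,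
    ∀ {Ω : Type} [MeasurableSpace Ω] (μ : Measure Ω) [IsProbabilityMeasure μ]
      (T : ℕ × ℕ → Ω → ℕ), Res μ T →
      c * μ.real {ω | GoodRun p (res T ω) z} ≤ μ.real {ω | GoodRun p (res T ω) z ∧
        QPrime p (res T ω (nextZero p (res T ω) z)) (nextZero p (res T ω) z)} := by
  obtain ⟨c, hc, hprod⟩ := prod_lower hp (fun r hr => w_le hp hr)
  refine ⟨c, hc, 2 * p, fun z hz Ω _ μ _ T hT => ?_⟩
  have hp2 := hp.two_le
  have hp1 : 1 ≤ p := by omega
  have hz1 : 1 ≤ z := by omega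
  have hzL : z ≤ lev p z := by unfold lev; omega
  let R : Finset ℕ := pr (lev p z + 2) ((lev p z + 2) ^ p)
  have hR : ∀ r ∈ R, lev p z + 2 < r ∧ r.Prime := by
    intro r hr
    have hr' : r ∈ pr (lev p z + 2) ((lev p z + 2) ^ p) := hr
    unfold pr at hr'
    rw [mem_filter, mem_Ioc] at hr'
    exact ⟨hr'.1.1, hr'.2⟩
  let A : ℕ → Set (ℕ × ℕ → ℕ) := fun n => {f : ℕ × ℕ → ℕ |
    GoodRun p (fun c r => f (c, r)) z ∧ nextZero p (fun c r => f (c, r)) z = n}
  let B : ℕ → Set (ℕ × ℕ → ℕ) := fun n => {f : ℕ × ℕ → ℕ | ∀ r ∈ R, ¬ Root p r (f (n, r))}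
  have hA : ∀ n, Dep (range (lev p z + 1) ×ˢ range (lev p z + 3)) (A n) := dep_run hp1 hz1
  have hB : ∀ n, Dep ({n} ×ˢ R) (B n) := by
    intro n f g hfg
    have h1 : ∀ r ∈ R, f (n, r) = g (n, r) := fun r hr =>
      hfg (n, r) (mem_product.2 ⟨mem_singleton_self n, hr⟩)
    constructor
    · intro hf r hr
      rw [← h1 r hr]
      exact hf r hr
    · intro hg r hr
      rw [h1 r hr]
      exact hg r hr
  have hdisj : ∀ n, Disjoint (range (lev p z + 1) ×ˢ range (lev p z + 3)) ({n} ×ˢ R) := by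
    intro n
    rw [Finset.disjoint_left]
    intro i hi hi'
    rw [mem_product] at hi hi'
    have h1 := hR i.2 hi'.2
    have h2 := mem_range.1 hi.2
    omega
  have key : ∀ n, c * μ.real {ω | (fun i => T i ω) ∈ A n} ≤
      μ.real {ω | (fun i => T i ω) ∈ A n ∧ (fun i => T i ω) ∈ B n} := by
    intro n
    rw [dep_indep hT.meas hT.indep (hdisj n) (hA n) (hB n)]
    have h1 : μ.real {ω | (fun i => T i ω) ∈ B n} = ∏ r ∈ R, (1 - (w p r : ℝ) / r) :=
      prob_none hT p n R fun r hr => (hR r hr).2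
    rw [h1, mul_comm]
    refine mul_le_mul_of_nonneg_left ?_ measureReal_nonneg
    exact hprod (lev p z + 2) (by omega)
  have hsub : {ω | GoodRun p (res T ω) z} ⊆
      ⋃ n ∈ range (lev p z + 1), {ω | (fun i => T i ω) ∈ A n} := by
    intro ω hω
    rw [Set.mem_iUnion₂]
    exact ⟨nextZero p (res T ω) z, mem_range.2 (Nat.lt_succ_of_le (nextZero_le hp1 _ hz1)),
      hω, rfl⟩
  have h1 : μ.real {ω | GoodRun p (res T ω) z} ≤
      ∑ n ∈ range (lev p z + 1), μ.real {ω | (fun i => T i ω) ∈ A n} :=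
    (measureReal_mono hsub (measure_ne_top μ _)).trans (measureReal_biUnion_finset_le _ _)
  have h2 : ∑ n ∈ range (lev p z + 1),
      μ.real {ω | (fun i => T i ω) ∈ A n ∧ (fun i => T i ω) ∈ B n} =
      μ.real (⋃ n ∈ range (lev p z + 1),
        {ω | (fun i => T i ω) ∈ A n ∧ (fun i => T i ω) ∈ B n}) := by
    rw [measureReal_biUnion_finset]
    · intro n _ m _ hnm
      rw [Function.onFun, Set.disjoint_left]
      intro ω h h'
      exact hnm (h.1.2.symm.trans h'.1.2)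
    · intro n _
      exact (dep_meas hT.meas (hA n)).inter (dep_meas hT.meas (hB n))
  calc c * μ.real {ω | GoodRun p (res T ω) z}
      ≤ c * ∑ n ∈ range (lev p z + 1), μ.real {ω | (fun i => T i ω) ∈ A n} :=
        mul_le_mul_of_nonneg_left h1 hc.le
    _ = ∑ n ∈ range (lev p z + 1), c * μ.real {ω | (fun i => T i ω) ∈ A n} := Finset.mul_sum _ _ _
    _ ≤ _ := sum_le_sum fun n _ => key n
    _ = _ := h2
    _ ≤ _ := by
      refine measureReal_mono ?_
      intro ω hω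
      rw [Set.mem_iUnion₂] at hω
      obtain ⟨n, hn, hAn, hBn⟩ := hω
      have hg : GoodRun p (res T ω) z := hAn.1
      have hnz : nextZero p (res T ω) z = n := hAn.2
      refine ⟨hg, ?_⟩
      rw [hnz]
      have hn1 : 1 ≤ n := by
        rw [← hnz]
        unfold nextZero
        omega
      refine qprime_of (z := z) hn1 (by have := mem_range.1 hn; omega) _ ?_ ?_
      · intro r hr hrM
        have := hg.2 r hr hrM
        rw [hnz] at this
        exact this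
      · exact hBn

end Pool.Agent.L5helper64.GRFive
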