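import Pool.Agent.L5helper64.PV.D

/-! The Tauberian lemma `tauber` for helper12 (`MP_8958e8_nt`). -/

set_option autoImplicit false

open Filter Topology Set MeasureTheory

namespace Pool.Agent.L5helper64.PVTau

theorem tauber (ν : ℝ → ℝ → ℝ) (ρ C0 : ℝ) (hρ : 0 ≤ ρ) (hC0 : 0 ≤ C0)
    (hc : ∀ T, Continuous (ν T)) (h0 : ∀ T y, 0 ≤ ν T y)
    (A0 : ∀ V : ℝ, 0 < V → ∀ᶠ T in atTop, ∫ y in V..(2 * V), ν T y ≤ C0 * V)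
    (Aup : ∀ X : ℝ, 0 < X → ∀ y0 y1 : ℝ, 0 < y0 → y0 ≤ y1 → ∀ ε : ℝ, 0 < ε → ∀ᶠ T in atTop,
      ∫ y in y0..y1, (2 - 2 * Real.cos (X * y)) / y ^ 2 * ν T y ≤ X * (Real.pi * ρ + ε))
    (Alow : ∀ ε : ℝ, 0 < ε → ∃ a b : ℝ, 0 < a ∧ a ≤ b ∧ ∀ X : ℝ, 0 < X → ∀ᶠ T in atTop,
      X * (Real.pi * ρ - ε) ≤
        ∫ y in (a / X)..(b / X), (2 - 2 * Real.cos (X * y)) / y ^ 2 * ν T y) :
    Tendsto (fun T => ∫ y in (1:ℝ)..2, ν T y) atTop (𝓝 ρ) :=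
  Pool.Agent.L5helper64.PV.tauber ν ρ C0 hρ hC0 hc h0 A0 Aup Alow

end Pool.Agent.L5helper64.PVTau
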